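import Mathlib

/-!
MP_e2c9e7_nt: the linear algebra of the theorem `Q1 + Q2 imply Pic^0(X) . Ch^i(X)^0 = 0`.

`R` is a commutative ring (the Chow ring of `X`), which acts on `W` (the classes homologous to zero), `ht` is the
height pairing, `L ∈ R` the class of the polarization, `ξ ∈ R` a divisor class homologous to zero.
-/

set_option autoImplicit false

set_option linter.unusedSectionVars false

namespace Pool.Agent.Helper21.Beil

universe u v w

section

variable {R : Type u} [CommRing R] [Algebra ℚ R]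

/-- the data of a projective bundle `Z` over `X`, the bundle of a sum of `M` line bundles with class `a` and one line
bundle with class `b` (`a, b` ample), with its relative hyperplane class `D`: pull-back and push-forward, the
projective bundle formula, the projection formula, and the index conjecture in the middle codimension `m` of `Z` -/
structure Bundle (W : Type v) [AddCommGroup W] [Module ℚ W] [Module R W] (gr : ℕ → Submodule ℚ W)
    (ht : W →ₗ[ℚ] W →ₗ[ℚ] ℝ) (L ξ a b : R) (M m : ℕ) where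
  /-- the classes on `Z` homologous to zero -/
  WZ : Type w
  [acg : AddCommGroup WZ]
  [modQ : Module ℚ WZ]
  [modR : Module R WZ]
  gr' : ℕ → Submodule ℚ WZ
  ht' : WZ →ₗ[ℚ] WZ →ₗ[ℚ] ℝ
  D : WZ →ₗ[R] WZ
  pull : W →ₗ[R] WZ
  push : WZ →ₗ[R] W
  pull_mem : ∀ j, ∀ x ∈ gr j, pull x ∈ gr' j
  D_mem : ∀ j, ∀ z ∈ gr' j, D z ∈ gr' (j + 1)
  L_mem : ∀ j, ∀ z ∈ gr' j, L • z ∈ gr' (j + 1)
  xi_mem : ∀ j, ∀ z ∈ gr' j, ξ • z ∈ gr' (j + 1)
  push_lt : ∀ x, ∀ j < M, push ((D ^ j) (pull x)) = 0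
  push_eq : ∀ x, push ((D ^ M) (pull x)) = x
  rel : ∀ x, ((D - algebraMap R (Module.End R WZ) a) ^ M * (D - algebraMap R (Module.End R WZ) b)) (pull x) = 0
  ht_pull : ∀ x z, ht' (pull x) z = ht x (push z)
  ht_D : ∀ y z, ht' (D y) z = ht' y (D z)
  ht_smul : ∀ (r : R) y z, ht' (r • y) z = ht' y (r • z)
  index : ∀ v ∈ gr' m, v ≠ 0 → D v = 0 → 0 < (-1 : ℝ) ^ m * ht' v v

end

section

variable {R : Type u} [CommRing R] [Algebra ℚ R]
variable {W : Type v} [AddCommGroup W] [Module ℚ W] [Module R W] [IsScalarTower ℚ R W]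
variable {gr : ℕ → Submodule ℚ W} {ht : W →ₗ[ℚ] W →ₗ[ℚ] ℝ} {L ξ a b : R} {M m : ℕ}

attribute [local instance] Bundle.acg Bundle.modQ Bundle.modR

namespace Bundle

/-- the operator `D - a` -/
noncomputable def A (B : Bundle.{u, v, w} W gr ht L ξ a b M m) : Module.End R B.WZ :=
  B.D - algebraMap R (Module.End R B.WZ) a

theorem A_apply (B : Bundle.{u, v, w} W gr ht L ξ a b M m) (z : B.WZ) : B.A z = B.D z - a • z := by
  simp [A, Module.algebraMap_end_apply]

theorem comm_DA (B : Bundle.{u, v, w} W gr ht L ξ a b M m) (z : B.WZ) : B.D (B.A z) = B.A (B.D z) := by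
  simp [A_apply]

theorem push_A (B : Bundle.{u, v, w} W gr ht L ξ a b M m) (x : W) (j : ℕ) : ∀ k, j + k < M →
    B.push ((B.D ^ k) ((B.A ^ j) (B.pull x))) = 0 := by
  induction j with
  | zero => intro k hk; simpa using B.push_lt x k (by omega)
  | succ j ih =>
    intro k hk
    have e : (B.D ^ k) ((B.A ^ (j + 1)) (B.pull x)) =
        (B.D ^ (k + 1)) ((B.A ^ j) (B.pull x)) - a • (B.D ^ k) ((B.A ^ j) (B.pull x)) := by
      rw [pow_succ' B.A, Module.End.mul_apply, A_apply, map_sub, map_smul, pow_succ B.D, Module.End.mul_apply]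
    rw [e, map_sub, map_smul, ih (k + 1) (by omega), ih k (by omega)]
    simp

theorem push_A_eq (B : Bundle.{u, v, w} W gr ht L ξ a b M m) (x : W) (j : ℕ) : ∀ k, j + k = M →
    B.push ((B.D ^ k) ((B.A ^ j) (B.pull x))) = x := by
  induction j with
  | zero =>
    intro k hk
    have : k = M := by omega
    subst this
    simpa using B.push_eq x
  | succ j ih =>
    intro k hk
    have e : (B.D ^ k) ((B.A ^ (j + 1)) (B.pull x)) =
        (B.D ^ (k + 1)) ((B.A ^ j) (B.pull x)) - a • (B.D ^ k) ((B.A ^ j) (B.pull x)) := by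
      rw [pow_succ' B.A, Module.End.mul_apply, A_apply, map_sub, map_smul, pow_succ B.D, Module.End.mul_apply]
    rw [e, map_sub, map_smul, ih (k + 1) (by omega), push_A B x j k (by omega)]
    simp

theorem ht_A (B : Bundle.{u, v, w} W gr ht L ξ a b M m) (y z : B.WZ) : B.ht' (B.A y) z = B.ht' y (B.A z) := by
  rw [A_apply, A_apply, map_sub, LinearMap.sub_apply, map_sub, B.ht_D, B.ht_smul]

theorem ht_A_pow (B : Bundle.{u, v, w} W gr ht L ξ a b M m) (j : ℕ) : ∀ y z : B.WZ,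
    B.ht' ((B.A ^ j) y) z = B.ht' y ((B.A ^ j) z) := by
  induction j with
  | zero => intro y z; simp
  | succ j ih =>
    intro y z
    rw [pow_succ, Module.End.mul_apply, ih, B.ht_A, ← Module.End.mul_apply, ← pow_succ', pow_succ]

/-- the class `((χ(D) - χ(0)) / D) x` -/
noncomputable def V (B : Bundle.{u, v, w} W gr ht L ξ a b M m) : Module.End R B.WZ :=
  B.A ^ M - algebraMap R (Module.End R B.WZ) b *
    ∑ j ∈ Finset.range M, B.A ^ j * (algebraMap R (Module.End R B.WZ) (-a)) ^ (M - 1 - j)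

theorem V_apply (B : Bundle.{u, v, w} W gr ht L ξ a b M m) (z : B.WZ) :
    B.V z = (B.A ^ M) z - b • ∑ j ∈ Finset.range M, (B.A ^ j) ((-a) ^ (M - 1 - j) • z) := by
  rw [V, LinearMap.sub_apply, Module.End.mul_apply, LinearMap.sum_apply, Module.algebraMap_end_apply]
  congr 2
  refine Finset.sum_congr rfl fun j _ => ?_
  rw [Module.End.mul_apply, ← map_pow, Module.algebraMap_end_apply]

theorem D_V (B : Bundle.{u, v, w} W gr ht L ξ a b M m) (x : W) (hx : (a ^ M * b) • x = 0) :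
    B.D (B.V (B.pull x)) = 0 := by
  have hc : Commute B.A (algebraMap R (Module.End R B.WZ) (-a)) := Algebra.commutes' _ _ |>.symm
  have hg := hc.geom_sum₂_mul M
  have hD : B.A - algebraMap R (Module.End R B.WZ) (-a) = B.D := by
    rw [A, map_neg]; abel
  rw [hD] at hg
  have hDA : Commute B.D B.A := by
    rw [← hD]
    exact (Commute.refl _).sub_left hc.symm
  have e : B.D * B.V = B.A ^ M * (B.D - algebraMap R (Module.End R B.WZ) b) +
      algebraMap R (Module.End R B.WZ) (b * (-a) ^ M) := by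
    rw [V, mul_sub, map_mul, map_pow]
    have h1 : B.D * B.A ^ M = B.A ^ M * B.D := (hDA.pow_right M).eq
    have h2 : B.D * (algebraMap R (Module.End R B.WZ) b *
        ∑ j ∈ Finset.range M, B.A ^ j * (algebraMap R (Module.End R B.WZ) (-a)) ^ (M - 1 - j)) =
        algebraMap R (Module.End R B.WZ) b * (B.A ^ M - (algebraMap R (Module.End R B.WZ) (-a)) ^ M) := by
      rw [← hg, ← mul_assoc, ← Algebra.commutes b B.D, mul_assoc]
      congr 1
      rw [Finset.mul_sum, Finset.sum_mul]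
      refine Finset.sum_congr rfl fun j _ => ?_
      exact ((hDA.pow_right j).mul_right ((Algebra.commute_algebraMap_right (-a) B.D).pow_right _)).eq
    rw [h1, h2, mul_sub, mul_sub, Algebra.commutes b (B.A ^ M)]
    abel
  have h := congrArg (fun T : Module.End R B.WZ => T (B.pull x)) e
  simp only [Module.End.mul_apply, LinearMap.add_apply, Module.algebraMap_end_apply] at h
  rw [h]
  have h1 := B.rel x
  rw [Module.End.mul_apply] at h1
  have h2 : (b * (-a) ^ M) • x = 0 := by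
    have : b * (-a) ^ M = (-1) ^ M * (a ^ M * b) := by
      rw [neg_pow a]; ring
    rw [this, mul_smul, hx, smul_zero]
  rw [← map_smul, h2, map_zero, add_zero]
  exact h1

theorem push_V (B : Bundle.{u, v, w} W gr ht L ξ a b M m) (x : W) : B.push (B.V (B.pull x)) = x := by
  rw [V_apply, map_sub, map_smul, map_sum]
  have h1 := B.push_A_eq x M 0 rfl
  rw [pow_zero, Module.End.one_apply] at h1
  rw [h1, Finset.sum_eq_zero, smul_zero, sub_zero]
  intro j hj
  have h2 := B.push_A x j 0 (by simpa using Finset.mem_range.1 hj)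
  rw [pow_zero, Module.End.one_apply] at h2
  rw [map_smul, map_smul, h2, smul_zero]

/-- the square of the class -/
theorem ht_V (B : Bundle.{u, v, w} W gr ht L ξ a b M m) (x : W) (hx : (a ^ M * b) • x = 0) :
    B.ht' (B.V (B.pull x)) (B.V (B.pull x)) = ht x (((-a) ^ M - (M : R) * (b * (-a) ^ (M - 1))) • x) := by
  set v := B.V (B.pull x) with hv
  have hD : B.D v = 0 := B.D_V x hx
  have hA : ∀ j, (B.A ^ j) v = (-a) ^ j • v := by
    intro j
    induction j with
    | zero => simp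
    | succ j ih =>
      rw [pow_succ', Module.End.mul_apply, ih, map_smul, A_apply, hD, zero_sub, ← neg_smul, smul_smul, ← pow_succ]
  have hself : ∀ z, B.ht' (B.V (B.pull x)) z = B.ht' (B.pull x) (B.V z) := by
    intro z
    rw [V_apply, V_apply, map_sub, LinearMap.sub_apply, map_sub, B.ht_A_pow, B.ht_smul, map_sum, LinearMap.sum_apply,
      Finset.smul_sum, map_sum]
    congr 1
    refine Finset.sum_congr rfl fun j _ => ?_
    rw [B.ht_A_pow, B.ht_smul, (B.A ^ j).map_smul b z, (B.A ^ j).map_smul ((-a) ^ (M - 1 - j)) z, smul_comm]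
  have hV : B.V v = ((-a) ^ M - (M : R) * (b * (-a) ^ (M - 1))) • v := by
    rw [V_apply, hA, sub_smul]
    congr 1
    have : ∀ j ∈ Finset.range M, (B.A ^ j) ((-a) ^ (M - 1 - j) • v) = (-a) ^ (M - 1) • v := by
      intro j hj
      rw [map_smul, hA, smul_smul, ← pow_add]
      congr 2
      have := Finset.mem_range.1 hj
      omega
    rw [Finset.sum_congr rfl this, Finset.sum_const, Finset.card_range, ← Nat.cast_smul_eq_nsmul R, smul_smul,
      smul_smul]
    congr 1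
    ring
  calc B.ht' v v = B.ht' (B.pull x) (B.V v) := hself v
    _ = ht x (B.push (B.V v)) := B.ht_pull _ _
    _ = ht x (((-a) ^ M - (M : R) * (b * (-a) ^ (M - 1))) • x) := by rw [hV, map_smul, hv, push_V]

theorem A_pow_mem (B : Bundle.{u, v, w} W gr ht L ξ a b M m)
    (ha : ∀ j, ∀ z ∈ B.gr' j, a • z ∈ B.gr' (j + 1)) (k : ℕ) : ∀ j, ∀ z ∈ B.gr' j, (B.A ^ k) z ∈ B.gr' (j + k) := by
  induction k with
  | zero => intro j z hz; simpa using hz
  | succ k ih =>
    intro j z hz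
    rw [pow_succ', Module.End.mul_apply, A_apply, ← add_assoc]
    exact Submodule.sub_mem _ (B.D_mem _ _ (ih j z hz)) (ha _ _ (ih j z hz))

theorem V_mem (B : Bundle.{u, v, w} W gr ht L ξ a b M m)
    (ha : ∀ j, ∀ z ∈ B.gr' j, a • z ∈ B.gr' (j + 1)) (hb : ∀ j, ∀ z ∈ B.gr' j, b • z ∈ B.gr' (j + 1))
    (j : ℕ) (z : B.WZ) (hz : z ∈ B.gr' j) : B.V z ∈ B.gr' (j + M) := by
  have hna : ∀ k, ∀ j, ∀ z ∈ B.gr' j, (-a) ^ k • z ∈ B.gr' (j + k) := by
    intro k
    induction k with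
    | zero => intro j z hz; simpa using hz
    | succ k ih =>
      intro j z hz
      rw [pow_succ', mul_smul, neg_smul, ← add_assoc]
      exact Submodule.neg_mem _ (ha _ _ (ih j z hz))
  rw [V_apply]
  refine Submodule.sub_mem _ (B.A_pow_mem ha M j z hz) ?_
  rw [Finset.smul_sum]
  refine Submodule.sum_mem _ fun k hk => ?_
  have hk' := Finset.mem_range.1 hk
  have h := hb _ _ (B.A_pow_mem ha k _ _ (hna (M - 1 - k) j z hz))
  have e : j + (M - 1 - k) + k + 1 = j + M := by omega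
  rwa [e] at h

/-- the inequality from the middle codimension of the bundle -/
theorem ineq (B : Bundle.{u, v, w} W gr ht L ξ a b M m)
    (ha : ∀ j, ∀ z ∈ B.gr' j, a • z ∈ B.gr' (j + 1)) (hb : ∀ j, ∀ z ∈ B.gr' j, b • z ∈ B.gr' (j + 1))
    (i : ℕ) (him : i + M = m) (x : W) (hx : x ∈ gr i) (hx0 : x ≠ 0) (hab : (a ^ M * b) • x = 0) :
    0 < (-1 : ℝ) ^ m * ht x (((-a) ^ M - (M : R) * (b * (-a) ^ (M - 1))) • x) := by
  subst him
  rw [← B.ht_V x hab]
  refine B.index _ ?_ ?_ (B.D_V x hab)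
  · exact B.V_mem ha hb i _ (B.pull_mem _ _ hx)
  · intro h
    apply hx0
    rw [← B.push_V x, h, map_zero]

end Bundle

/-- a real affine function with positive values at the rational numbers is constant -/
theorem slope_eq_zero {α β : ℝ} (h : ∀ u : ℚ, 0 < α + u * β) : β = 0 := by
  by_contra hβ
  rcases lt_or_gt_of_ne hβ with h1 | h1
  · obtain ⟨q, hq⟩ := exists_rat_gt (-α / β)
    have h2 := h q
    rw [div_lt_iff_of_neg h1] at hq
    linarith
  · obtain ⟨q, hq⟩ := exists_rat_lt (-α / β)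
    have h2 := h q
    rw [lt_div_iff₀ h1] at hq
    linarith

/-- the hypotheses on `X`: `gr i` are the classes of codimension `i` homologous to zero, `0 < i < n + 1`, `Q1` and
`Q2` hold for the polarization `L` (only the surjectivity in `Q1` is used) -/
structure Hodge (gr : ℕ → Submodule ℚ W) (ht : W →ₗ[ℚ] W →ₗ[ℚ] ℝ) (L : R) (n : ℕ) : Prop where
  symm : ∀ x y, ht x y = ht y x
  adj : ∀ (r : R) x y, ht (r • x) y = ht x (r • y)
  L_mem : ∀ i, ∀ x ∈ gr i, L • x ∈ gr (i + 1)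
  gr_zero : ∀ x ∈ gr 0, x = 0
  gr_top : ∀ x ∈ gr (n + 1), x = 0
  Q1 : ∀ i, 1 ≤ i → 2 * i ≤ n + 1 → ∀ y ∈ gr (n + 1 - i), ∃ x ∈ gr i, L ^ (n + 1 - 2 * i) • x = y
  Q2 : ∀ i, 1 ≤ i → 2 * i ≤ n + 1 → ∀ x ∈ gr i, x ≠ 0 → L ^ (n + 2 - 2 * i) • x = 0 →
    0 < (-1 : ℝ) ^ i * ht x (L ^ (n + 1 - 2 * i) • x)

namespace Hodge

variable {n : ℕ}

theorem pow_mem (H : Hodge gr ht L n) (k : ℕ) : ∀ i, ∀ x ∈ gr i, L ^ k • x ∈ gr (i + k) := by
  induction k with
  | zero => intro i x hx; simpa using hx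
  | succ k ih =>
    intro i x hx
    rw [pow_succ', mul_smul, ← add_assoc]
    exact H.L_mem _ _ (ih i x hx)

theorem surj (H : Hodge gr ht L n) (i : ℕ) (hi : 2 * i ≤ n + 1) :
    ∀ y ∈ gr (n + 1 - i), ∃ x ∈ gr i, L ^ (n + 1 - 2 * i) • x = y := by
  rcases Nat.eq_zero_or_pos i with rfl | h
  · intro y hy
    exact ⟨0, Submodule.zero_mem _, by rw [smul_zero]; exact (H.gr_top y (by simpa using hy)).symm⟩
  · exact H.Q1 i h hi

theorem decomp (H : Hodge gr ht L n) (k : ℕ) (hk : 2 * (k + 1) ≤ n + 1) (x : W) (hx : x ∈ gr (k + 1)) :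
    ∃ p ∈ gr (k + 1), ∃ y ∈ gr k, L ^ (n + 2 - 2 * (k + 1)) • p = 0 ∧ x = p + L • y := by
  have h1 : L ^ (n + 2 - 2 * (k + 1)) • x ∈ gr (n + 1 - k) := by
    have h := H.pow_mem (n + 2 - 2 * (k + 1)) _ x hx
    have e : k + 1 + (n + 2 - 2 * (k + 1)) = n + 1 - k := by omega
    rwa [e] at h
  obtain ⟨y, hy, hy2⟩ := H.surj k (by omega) _ h1
  refine ⟨x - L • y, Submodule.sub_mem _ hx (H.L_mem _ _ hy), y, hy, ?_, by abel⟩
  rw [smul_sub, ← hy2, ← mul_smul, ← pow_succ, sub_eq_zero]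
  congr 2
  omega

theorem nondeg (H : Hodge gr ht L n) (i : ℕ) : 2 * i ≤ n + 1 → ∀ y ∈ gr i,
    (∀ y' ∈ gr i, ht (L ^ (n + 1 - 2 * i) • y) y' = 0) → y = 0 := by
  induction i with
  | zero => intro _ y hy _; exact H.gr_zero y hy
  | succ k ih =>
    intro hk y hy h
    obtain ⟨p, hp, x, hx, hpp, rfl⟩ := H.decomp k hk y hy
    have hp0 : p = 0 := by
      by_contra hp0
      have h1 := H.Q2 (k + 1) (by omega) hk p hp hp0 hpp
      have h2 := h p hp
      rw [smul_add, map_add, LinearMap.add_apply, ← mul_smul, ← pow_succ, H.adj (L ^ (n + 1 - 2 * (k + 1) + 1))] at h2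
      have e : n + 1 - 2 * (k + 1) + 1 = n + 2 - 2 * (k + 1) := by omega
      rw [e, hpp, map_zero, add_zero, H.adj] at h2
      rw [h2, mul_zero] at h1
      exact lt_irrefl _ h1
    rw [hp0, zero_add] at h ⊢
    have hx0 : x = 0 := by
      refine ih (by omega) x hx fun x' hx' => ?_
      have h2 := h (L • x') (H.L_mem _ _ hx')
      rw [← H.adj, ← mul_smul, ← mul_smul, ← pow_succ', ← pow_succ] at h2
      have e : n + 1 - 2 * (k + 1) + 1 + 1 = n + 1 - 2 * k := by omega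
      rwa [e] at h2
    rw [hx0, smul_zero]

/-- `(L + t ξ)^(k+1) y = L^(k+1) y + ξ z` -/
theorem expand (H : Hodge gr ht L n) (hξ : ∀ i, ∀ x ∈ gr i, ξ • x ∈ gr (i + 1)) (t : ℚ) (j : ℕ) (y : W)
    (hy : y ∈ gr j) (k : ℕ) : ∃ z ∈ gr (j + k), (L + t • ξ) ^ (k + 1) • y = L ^ (k + 1) • y + ξ • z := by
  induction k with
  | zero =>
    refine ⟨t • y, Submodule.smul_mem _ _ hy, ?_⟩
    rw [zero_add, pow_one, pow_one, add_smul, smul_assoc, smul_comm]
  | succ k ih =>
    obtain ⟨z, hz, e⟩ := ih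
    refine ⟨t • (L ^ (k + 1) • y) + (L + t • ξ) • z, ?_, ?_⟩
    · refine Submodule.add_mem _ (Submodule.smul_mem _ _ (H.pow_mem _ _ _ hy)) ?_
      rw [add_smul, smul_assoc, ← add_assoc]
      exact Submodule.add_mem _ (H.L_mem _ _ hz) (Submodule.smul_mem _ _ (hξ _ _ hz))
    · rw [pow_succ', mul_smul, e, smul_add, add_smul, pow_succ' L (k + 1), mul_smul, smul_add, smul_assoc,
        smul_comm t ξ, add_assoc]
      congr 2
      rw [← mul_smul, ← mul_smul, mul_comm]

theorem expand2 (H : Hodge gr ht L n) (hξ : ∀ i, ∀ x ∈ gr i, ξ • x ∈ gr (i + 1)) (t u : ℚ) (j : ℕ) (y : W)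
    (hy : y ∈ gr j) (k : ℕ) : ∃ z ∈ gr (j + (k + 1)),
      ((L + t • ξ) ^ (k + 1) * (L + u • ξ)) • y = L ^ (k + 2) • y + ξ • z := by
  obtain ⟨z, hz, e⟩ := H.expand hξ t j y hy k
  refine ⟨u • (L ^ (k + 1) • y) + (L + u • ξ) • z, ?_, ?_⟩
  · refine Submodule.add_mem _ (Submodule.smul_mem _ _ (H.pow_mem _ _ _ hy)) ?_
    rw [add_smul, smul_assoc, ← add_assoc]
    exact Submodule.add_mem _ (H.L_mem _ _ hz) (Submodule.smul_mem _ _ (hξ _ _ hz))
  · rw [mul_comm, mul_smul, e, smul_add, add_smul, pow_succ' L (k + 1), mul_smul, smul_add, smul_assoc,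
      smul_comm u ξ, add_assoc]
    congr 2
    rw [← mul_smul, ← mul_smul, mul_comm]

/-- from the identities for all rational `t` to the coefficient of `t` -/
theorem coeff_one (H : Hodge gr ht L n) (w : W) (p : ℕ)
    (h : ∀ t : ℚ, ht w ((ξ * (L + t • ξ) ^ (p + 1)) • w) = 0) : ht w ((ξ ^ 2 * L ^ p) • w) = 0 := by
  classical
  let φ : ℕ → ℝ := fun k => (((p + 1).choose k : ℕ) : ℝ) * ht w ((ξ ^ (k + 1) * L ^ (p + 1 - k)) • w)
  let P : Polynomial ℝ := ∑ k ∈ Finset.range (p + 2), Polynomial.C (φ k) * Polynomial.X ^ k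
  have hev : ∀ t : ℚ, P.eval (t : ℝ) = 0 := by
    intro t
    rw [← h t, Polynomial.eval_finsetSum, add_comm L, add_pow, Finset.mul_sum, Finset.sum_smul, map_sum]
    refine Finset.sum_congr rfl fun k _ => ?_
    rw [Polynomial.eval_mul, Polynomial.eval_C, Polynomial.eval_pow, Polynomial.eval_X]
    have e : (ξ * ((t • ξ) ^ k * L ^ (p + 1 - k) * (((p + 1).choose k : ℕ) : R))) • w =
        (t ^ k * (((p + 1).choose k : ℕ) : ℚ)) • ((ξ ^ (k + 1) * L ^ (p + 1 - k)) • w) := by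
      rw [← smul_assoc]
      congr 1
      rw [Algebra.smul_def, Algebra.smul_def, map_mul, map_pow, map_natCast]
      ring
    rw [e, (ht w).map_smul, Rat.smul_def]
    push_cast
    ring
  have hP : P = 0 := by
    refine Polynomial.eq_zero_of_infinite_isRoot P ?_
    refine Set.Infinite.mono ?_ (Set.infinite_range_of_injective (f := fun t : ℚ => (t : ℝ)) Rat.cast_injective)
    rintro _ ⟨t, rfl⟩
    exact hev t
  have hc : P.coeff 1 = φ 1 := by
    rw [Polynomial.finsetSum_coeff, Finset.sum_eq_single 1]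
    · simp
    · intro k _ hk
      rw [Polynomial.coeff_C_mul, Polynomial.coeff_X_pow, if_neg (Ne.symm hk), mul_zero]
    · intro hk
      exact absurd (Finset.mem_range.2 (by omega)) hk
  rw [hP, Polynomial.coeff_zero] at hc
  have h1 : φ 1 = ((p + 1 : ℕ) : ℝ) * ht w ((ξ ^ 2 * L ^ p) • w) := by
    change (((p + 1).choose 1 : ℕ) : ℝ) * _ = _
    rw [Nat.choose_one_right]
    rfl
  rw [h1] at hc
  rcases mul_eq_zero.1 hc.symm with h2 | h2
  · exfalso
    have : ((p + 1 : ℕ) : ℝ) ≠ 0 := by positivity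
    exact this h2
  · exact h2

theorem add_smul_smul {Z : Type*} [AddCommGroup Z] [Module ℚ Z] [Module R Z] (L ξ : R) (s : ℚ) (z : Z) :
    (L + s • ξ) • z = L • z + s • (ξ • z) := by
  rw [add_smul, smul_assoc]

/-- the identity from the bundles, for a primitive class `w` of codimension `i` -/
theorem bundle_identity (H : Hodge gr ht L n) (hξ : ∀ i, ∀ x ∈ gr i, ξ • x ∈ gr (i + 1)) (i : ℕ) (hi : 1 ≤ i)
    (hin : 2 * i ≤ n)
    (hB : ∀ t u : ℚ,
      Nonempty (Bundle.{u, v, w} W gr ht L ξ (L + t • ξ) (L + u • ξ) (n + 1 - 2 * i) (n + 1 - i)))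
    (hT : ∀ x ∈ gr (n + 1 - i), ξ • x = 0) (w : W) (hw : w ∈ gr i) (hw2 : L ^ (n + 2 - 2 * i) • w = 0) (t : ℚ) :
    ht w ((ξ * (L + t • ξ) ^ (n - 2 * i)) • w) = 0 := by
  by_cases hw0 : w = 0
  · rw [hw0, smul_zero, map_zero]
  obtain ⟨q, hq⟩ : ∃ q, n + 1 - 2 * i = q + 1 := ⟨n - 2 * i, by omega⟩
  have hq' : n - 2 * i = q := by omega
  rw [hq']
  have key : ∀ u : ℚ, 0 < (-1 : ℝ) ^ (n + 1 - i) *
      ht w (((-(L + t • ξ)) ^ (q + 1) - ((q + 1 : ℕ) : R) * ((L + u • ξ) * (-(L + t • ξ)) ^ q)) • w) := by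
    intro u
    obtain ⟨B⟩ := hB t u
    have hab : ((L + t • ξ) ^ (n + 1 - 2 * i) * (L + u • ξ)) • w = 0 := by
      rw [hq]
      obtain ⟨z, hz, e⟩ := H.expand2 hξ t u i w hw q
      have e1 : i + (q + 1) = n + 1 - i := by omega
      have e2 : q + 2 = n + 2 - 2 * i := by omega
      rw [e1] at hz
      rw [e, e2, hw2, hT z hz, add_zero]
    have hm : ∀ s : ℚ, ∀ j, ∀ z ∈ B.gr' j, (L + s • ξ) • z ∈ B.gr' (j + 1) := by
      intro s j z hz
      have e := add_smul_smul L ξ s z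
      rw [e]
      exact Submodule.add_mem _ (B.L_mem _ _ hz) (Submodule.smul_mem _ _ (B.xi_mem _ _ hz))
    have h := B.ineq (hm t) (hm u) i (by omega) w hw hw0 hab
    rw [hq] at h
    simpa using h
  have key2 : ∀ u : ℚ, 0 < (-1 : ℝ) ^ (n + 1 - i) *
      ht w (((-(L + t • ξ)) ^ (q + 1) - ((q + 1 : ℕ) : R) * (L * (-(L + t • ξ)) ^ q)) • w) +
      u * ((-1 : ℝ) ^ (n + 1 - i) * -(((q + 1 : ℕ) : ℝ) * ht w ((ξ * (-(L + t • ξ)) ^ q) • w))) := by
    intro u
    have h := key u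
    have e : ((-(L + t • ξ)) ^ (q + 1) - ((q + 1 : ℕ) : R) * ((L + u • ξ) * (-(L + t • ξ)) ^ q)) • w =
        ((-(L + t • ξ)) ^ (q + 1) - ((q + 1 : ℕ) : R) * (L * (-(L + t • ξ)) ^ q)) • w -
        (u * ((q + 1 : ℕ) : ℚ)) • ((ξ * (-(L + t • ξ)) ^ q) • w) := by
      rw [← smul_assoc, ← sub_smul]
      congr 1
      simp only [Algebra.smul_def, map_mul, map_natCast]
      ring
    rw [e, map_sub, (ht w).map_smul, Rat.smul_def] at h
    push_cast at h ⊢
    linarith
  have h3 := slope_eq_zero key2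
  have h4 : ht w ((ξ * (-(L + t • ξ)) ^ q) • w) = 0 := by
    have h5 : (-1 : ℝ) ^ (n + 1 - i) ≠ 0 := pow_ne_zero _ (by norm_num)
    have h6 : ((q + 1 : ℕ) : ℝ) ≠ 0 := by positivity
    rcases mul_eq_zero.1 h3 with h7 | h7
    · exact absurd h7 h5
    · rw [neg_eq_zero] at h7
      rcases mul_eq_zero.1 h7 with h8 | h8
      · exact absurd h8 h6
      · exact h8
  have h5 : (ξ * (-(L + t • ξ)) ^ q) • w = ((-1 : ℚ) ^ q) • ((ξ * (L + t • ξ) ^ q) • w) := by
    rw [← smul_assoc]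
    congr 1
    rw [neg_pow]
    simp only [Algebra.smul_def, map_pow, map_neg, map_one]
    ring
  rw [h5, map_smul, Rat.smul_def] at h4
  rcases mul_eq_zero.1 h4 with h6 | h6
  · exfalso
    have : (((-1 : ℚ) ^ q : ℚ) : ℝ) ≠ 0 := by
      rw [Ne, Rat.cast_eq_zero]
      exact pow_ne_zero _ (by norm_num)
    exact this h6
  · exact h6

/-- `ξ` kills the primitive classes of codimension `i` -/
theorem kill_primitive (H : Hodge gr ht L n) (hξ : ∀ i, ∀ x ∈ gr i, ξ • x ∈ gr (i + 1)) (k : ℕ)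
    (hin : 2 * (k + 1) ≤ n)
    (hB : ∀ t u : ℚ, Nonempty (Bundle.{u, v, w} W gr ht L ξ (L + t • ξ) (L + u • ξ) (n + 1 - 2 * (k + 1))
      (n + 1 - (k + 1))))
    (hk : ∀ x ∈ gr k, ξ • x = 0) (hT : ∀ x ∈ gr (n + 1 - (k + 1)), ξ • x = 0) (w : W) (hw : w ∈ gr (k + 1))
    (hw2 : L ^ (n + 2 - 2 * (k + 1)) • w = 0) : ξ • w = 0 := by
  have hE : ∀ w' ∈ gr (k + 1), L ^ (n + 2 - 2 * (k + 1)) • w' = 0 → ∀ t : ℚ,
      ht w' ((ξ * (L + t • ξ) ^ (n - 2 * (k + 1))) • w') = 0 :=
    fun w' h1 h2 t => H.bundle_identity hξ (k + 1) (by omega) hin hB hT w' h1 h2 t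
  have hE1 : ∀ w' ∈ gr (k + 1), L ^ (n + 2 - 2 * (k + 1)) • w' = 0 →
      ht w' ((ξ * L ^ (n - 2 * (k + 1))) • w') = 0 := by
    intro w' h1 h2
    have h := hE w' h1 h2 0
    rwa [zero_smul, add_zero] at h
  have hE2 : ∀ w' ∈ gr (k + 1), L ^ (n + 2 - 2 * (k + 1)) • w' = 0 →
      ht w ((ξ * L ^ (n - 2 * (k + 1))) • w') = 0 := by
    intro w' h1 h2
    have h := hE1 (w + w') (Submodule.add_mem _ hw h1) (by rw [smul_add, hw2, h2, add_zero])
    have h3 := hE1 w hw hw2
    have h4 := hE1 w' h1 h2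
    have h5 : ht w' ((ξ * L ^ (n - 2 * (k + 1))) • w) = ht w ((ξ * L ^ (n - 2 * (k + 1))) • w') := by
      rw [← H.adj, H.symm]
    rw [smul_add, map_add, map_add, LinearMap.add_apply, LinearMap.add_apply, h3, h4, h5] at h
    linarith
  have e1 : ∀ y' ∈ gr (k + 1), ht (L ^ (n - 2 * (k + 1)) • (ξ • w)) y' = 0 := by
    intro y' hy'
    obtain ⟨p, hp, x, hx, hpp, rfl⟩ := H.decomp k (by omega) y' hy'
    rw [map_add, ← mul_smul, mul_comm, H.adj, hE2 p hp hpp, zero_add, H.adj, mul_comm, mul_smul, smul_comm ξ L x,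
      hk x hx, smul_zero, smul_zero, map_zero]
  by_cases hM : n = 2 * (k + 1)
  · have hz : ξ • w ∈ gr (n + 1 - (k + 1)) := by
      have h := hξ _ _ hw
      have e : k + 1 + 1 = n + 1 - (k + 1) := by omega
      rwa [e] at h
    obtain ⟨y, hy, hy2⟩ := H.surj (k + 1) (by omega) _ hz
    have hy0 : y = 0 := by
      refine H.nondeg (k + 1) (by omega) y hy fun y' hy' => ?_
      rw [hy2]
      have h := e1 y' hy'
      have e : n - 2 * (k + 1) = 0 := by omega
      rwa [e, pow_zero, one_smul] at h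
    rw [← hy2, hy0, smul_zero]
  · obtain ⟨p, hp, y, hy, hpp, hzp⟩ := H.decomp (k + 1) (by omega) (ξ • w) (hξ _ _ hw)
    have hy0 : y = 0 := by
      refine H.nondeg (k + 1) (by omega) y hy fun y' hy' => ?_
      have h := e1 y' hy'
      rw [hzp, smul_add, ← mul_smul, ← pow_succ] at h
      have e2 : n + 2 - 2 * (k + 1 + 1) = n - 2 * (k + 1) := by omega
      have e3 : n - 2 * (k + 1) + 1 = n + 1 - 2 * (k + 1) := by omega
      rw [e2] at hpp
      rwa [hpp, zero_add, e3] at h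
    rw [hy0, smul_zero, add_zero] at hzp
    rw [hzp]
    by_contra hp0
    have h1 := H.Q2 (k + 1 + 1) (by omega) (by omega) p hp hp0 hpp
    obtain ⟨q, hq⟩ : ∃ q, n - 2 * (k + 1) = q + 1 := ⟨n - 2 * (k + 1) - 1, by omega⟩
    have e4 : n + 1 - 2 * (k + 1 + 1) = q := by omega
    rw [e4, ← hzp] at h1
    have h2 := H.coeff_one (ξ := ξ) w q (by
      intro t
      have h := hE w hw hw2 t
      rwa [hq] at h)
    have h3 : ht (ξ • w) (L ^ q • ξ • w) = ht w ((ξ ^ 2 * L ^ q) • w) := by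
      rw [H.adj, ← mul_smul, ← mul_smul]
      congr 2
      ring
    rw [h3, h2, mul_zero] at h1
    exact lt_irrefl _ h1

end Hodge

/-- **Theorem**: if Q1 and Q2 hold for `X` and the index conjecture holds in the middle codimension of the bundles
`P(N_t^M + N_u)`, then the divisor class `ξ`, homologous to zero, acts as zero on the classes homologous to zero -/
theorem core {n : ℕ} (H : Hodge gr ht L n) (hξ : ∀ i, ∀ x ∈ gr i, ξ • x ∈ gr (i + 1))
    (hB : ∀ i, 1 ≤ i → 2 * i ≤ n → ∀ t u : ℚ,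
      Nonempty (Bundle.{u, v, w} W gr ht L ξ (L + t • ξ) (L + u • ξ) (n + 1 - 2 * i) (n + 1 - i))) :
    ∀ j ≤ n, ∀ x ∈ gr j, ξ • x = 0 := by
  have main : ∀ i, 2 * i ≤ n → (∀ x ∈ gr i, ξ • x = 0) ∧ ∀ x ∈ gr (n - i), ξ • x = 0 := by
    intro i
    induction i with
    | zero =>
      intro _
      refine ⟨fun x hx => by rw [H.gr_zero x hx, smul_zero], fun x hx => ?_⟩
      exact H.gr_top _ (hξ _ _ (by simpa using hx))
    | succ k ih =>
      intro hk
      obtain ⟨h1, h2⟩ := ih (by omega)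
      have hT : ∀ x ∈ gr (n + 1 - (k + 1)), ξ • x = 0 := by
        have e : n + 1 - (k + 1) = n - k := by omega
        rw [e]
        exact h2
      have h3 : ∀ x ∈ gr (k + 1), ξ • x = 0 := by
        intro x hx
        obtain ⟨p, hp, y, hy, hpp, rfl⟩ := H.decomp k (by omega) x hx
        rw [smul_add, H.kill_primitive hξ k hk (hB (k + 1) (by omega) hk) h1 hT p hp hpp, zero_add, smul_comm,
          h1 y hy, smul_zero]
      refine ⟨h3, fun x hx => ?_⟩
      have hz : ξ • x ∈ gr (n + 1 - (k + 1)) := by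
        have h := hξ _ _ hx
        have e : n - (k + 1) + 1 = n + 1 - (k + 1) := by omega
        rwa [e] at h
      obtain ⟨y, hy, hy2⟩ := H.surj (k + 1) (by omega) _ hz
      have hy0 : y = 0 := by
        refine H.nondeg (k + 1) (by omega) y hy fun y' hy' => ?_
        rw [hy2, H.adj, h3 y' hy', map_zero]
      rw [← hy2, hy0, smul_zero]
  intro j hj x hx
  by_cases h : 2 * j ≤ n
  · exact (main j h).1 x hx
  · have h2 := (main (n - j) (by omega)).2
    have e : n - (n - j) = j := by omega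
    rw [e] at h2
    exact h2 x hx

end

end Pool.Agent.Helper21.Beil
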